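import Mathlib

set_option autoImplicit false

namespace Pool.Agent.Results.MP_328b17_nt.FailsAtEleven

open Finset Polynomial

/-- The field `ℚ(q)` of rational functions; the variable `q` is `RatFunc.X`. -/
abbrev K : Type := RatFunc ℚ

/-- The variable `q`. -/
noncomputable def q : K := RatFunc.X

/-- The `q`-integer `[m] = (1 - q^m)/(1 - q)` for an integer `m`. -/
noncomputable def qint (m : ℤ) : K := (1 - q ^ m) / (1 - q)

/-- The `q`-shifted factorial `(a;b)_k = (1-a)(1-ab)⋯(1-ab^(k-1))`. -/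
noncomputable def poch (a b : K) (k : ℕ) : K := ∏ i ∈ range k, (1 - a * b ^ i)

/-- The sum `S_p(q)` of the problem. -/
noncomputable def S (p : ℕ) : K :=
  ∑ j ∈ range p, qint (2 * ((p : ℤ) - 1) * (j : ℤ) - 1) *
    (poch (q ^ (-1 : ℤ)) (q ^ (p - 1)) j / poch (q ^ (p - 1)) (q ^ (p - 1)) j) ^ (2 * (p - 1)) *
    q ^ (j * (p - 1) ^ 2)

/-- The right-hand side `(1/6)(p-1)(p-3)(2p-3)(p-2)^2 (1-q)^2 Φ_p(q)^4`. -/
noncomputable def R (p : ℕ) : K :=
  (((1 / 6 : ℚ) * ((p : ℚ) - 1) * ((p : ℚ) - 3) * (2 * (p : ℚ) - 3) * ((p : ℚ) - 2) ^ 2 : ℚ) : K) *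
    (1 - q) ^ 2 * (algebraMap ℚ[X] K (cyclotomic p ℚ)) ^ 4

/-- Congruence of rational functions modulo a polynomial `P`: the difference is `P U / V` with
polynomials `U`, `V` and `V` coprime to `P`. -/
def Cong (P : ℚ[X]) (f g : K) : Prop :=
  ∃ U V : ℚ[X], IsCoprime V P ∧ V ≠ 0 ∧ f - g = algebraMap ℚ[X] K (P * U) / algebraMap ℚ[X] K V

/-- `D = ∏_{i=1}^{10} (1 - X^{10 i})`, split as `B j * C j`. -/
noncomputable def B (j : ℕ) : ℤ[X] := ∏ i ∈ range j, (1 - X ^ (10 * (i + 1)))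
noncomputable def C' (j : ℕ) : ℤ[X] := ∏ i ∈ Ico j 10, (1 - X ^ (10 * (i + 1)))
noncomputable def T (j : ℕ) : ℤ[X] :=
  (X - X ^ (20 * j)) * X ^ (200 - 20 * j) * (∏ i ∈ range j, (X - X ^ (10 * i))) ^ 20 *
    (C' j) ^ 20 * X ^ (100 * j)

/-- The second part of the cleared numerator. -/
noncomputable def Y0 (ee : ℕ) : ℤ[X] :=
  C 20520 * (1 - X) ^ 2 * (∑ i ∈ range 11, X ^ i) ^ 4 * (X ^ ee * (1 - X) * (B 10) ^ 20)

/-- The first part of the cleared numerator. -/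
noncomputable def T0 : ℤ[X] := ∑ j ∈ range 11, T j

/-- The cleared numerator. -/
noncomputable def N0 (ee : ℕ) : ℤ[X] := T0 - Y0 ee

/-- integer value of `T j` at `2` -/
def tv (j : ℕ) : ℤ :=
  (2 - 2 ^ (20 * j)) * 2 ^ (200 - 20 * j) * (∏ i ∈ range j, (2 - 2 ^ (10 * i))) ^ 20 *
    (∏ i ∈ Ico j 10, (1 - 2 ^ (10 * (i + 1)))) ^ 20 * 2 ^ (100 * j)

def nv (ee : ℕ) : ℤ := ∑ j ∈ range 11, tv j -
    20520 * (1 - 2) ^ 2 * (∑ i ∈ range 11, 2 ^ i) ^ 4 *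
      (2 ^ ee * (1 - 2) * (∏ i ∈ range 10, (1 - 2 ^ (10 * (i + 1)))) ^ 20)

theorem eval_T (j : ℕ) : (T j).eval 2 = tv j := by
  simp [T, tv, C', eval_prod]

theorem eval_B : (B 10).eval 2 = ∏ i ∈ range 10, (1 - 2 ^ (10 * (i + 1))) := by
  rw [B, eval_prod]
  refine prod_congr rfl fun i _ => ?_
  rw [eval_sub, eval_one, eval_pow, eval_X]

theorem eval_Y (ee : ℕ) : (Y0 ee).eval 2 =
    20520 * (1 - 2) ^ 2 * (∑ i ∈ range 11, 2 ^ i) ^ 4 *
      (2 ^ ee * (1 - 2) * (∏ i ∈ range 10, (1 - 2 ^ (10 * (i + 1)))) ^ 20) := by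
  rw [Y0, eval_mul, eval_mul, eval_mul, eval_mul, eval_mul, eval_pow, eval_pow, eval_pow, eval_pow,
    eval_B, eval_sub, eval_one, eval_X, eval_C, eval_finsetSum]
  simp only [eval_pow, eval_X]

theorem eval_N0 (ee : ℕ) : (N0 ee).eval 2 = nv ee := by
  unfold N0 nv
  rw [eval_sub, eval_Y, T0, eval_finsetSum, sum_congr rfl fun j _ => eval_T j]

theorem nv_not_dvd : ¬ ((2047 : ℤ) ^ 5 ∣ nv 201) := by
  decide +kernel

/-- the embedding of `ℤ[X]` in `ℚ(q)` -/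
noncomputable def ι : ℤ[X] →+* K := (algebraMap ℚ[X] K).comp (mapRingHom (Int.castRingHom ℚ))

theorem ι_X : ι X = q := by simp [ι, q]

theorem q_ne : q ≠ 0 := RatFunc.X_ne_zero

theorem ι_inj : Function.Injective ι :=
  (RatFunc.algebraMap_injective ℚ).comp (Polynomial.map_injective _ Int.cast_injective)

theorem one_sub_ne (n : ℕ) (hn : n ≠ 0) : (1 - q ^ n) ≠ 0 := by
  have : ι (1 - X ^ n) ≠ 0 := by
    rw [Ne, map_eq_zero_iff _ ι_inj]
    intro h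
    have := congrArg (Polynomial.eval 0) h
    simp [hn] at this
  simpa [ι_X] using this

set_option maxRecDepth 20000 in
theorem term_eq (ee : ℕ) (ee_eq : ee = 201) (j : ℕ) (hj : j < 11) :
    q ^ ee * (1 - q) * (ι (B 10)) ^ 20 *
      (qint (2 * (((11 : ℕ) : ℤ) - 1) * (j : ℤ) - 1) *
      (poch (q ^ (-1 : ℤ)) (q ^ (11 - 1)) j / poch (q ^ (11 - 1)) (q ^ (11 - 1)) j) ^ (2 * (11 - 1)) *
      q ^ (j * (11 - 1) ^ 2)) = ι (T j) := by
  have hB : B 10 = B j * C' j := by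
    rw [B, B, C', Finset.prod_range_mul_prod_Ico _ (by omega)]
  have hq := q_ne
  have h1 : (1 - q) ≠ 0 := by simpa using one_sub_ne 1 one_ne_zero
  have hBj : poch (q ^ (11 - 1)) (q ^ (11 - 1)) j = ι (B j) := by
    simp only [poch, B, map_prod, map_sub, map_one, map_pow, ι_X]
    refine prod_congr rfl fun i _ => ?_
    ring
  have hBne : ι (B j) ≠ 0 := by
    simp only [B, map_prod, map_sub, map_one, map_pow, ι_X]
    rw [Finset.prod_ne_zero_iff]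
    intro i _
    exact one_sub_ne _ (by omega)
  have hP : q ^ j * poch (q ^ (-1 : ℤ)) (q ^ (11 - 1)) j =
      ∏ i ∈ range j, (q - q ^ (10 * i)) := by
    have : q ^ j = ∏ i ∈ range j, q := by simp
    rw [this, poch, ← Finset.prod_mul_distrib]
    refine prod_congr rfl fun i _ => ?_
    rw [zpow_neg_one, mul_sub, mul_one, ← mul_assoc, mul_inv_cancel₀ hq, one_mul]
    ring
  have hqi : q * (1 - q) * qint (2 * (((11 : ℕ) : ℤ) - 1) * (j : ℤ) - 1) = q - q ^ (20 * j) := by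
    have e : (2 * (((11 : ℕ) : ℤ) - 1) * (j : ℤ) - 1) = ((20 * j : ℕ) : ℤ) - 1 := by push_cast; ring
    rw [e, qint, zpow_sub₀ hq, zpow_natCast, zpow_one]
    field_simp
  have hpow : q ^ ee = q * q ^ (200 - 20 * j) * (q ^ j) ^ 20 := by
    rw [← pow_mul, mul_assoc, ← pow_add, ← pow_succ', ee_eq]
    congr 1
    omega
  rw [hB, hBj, map_mul, hpow, div_pow]
  have hT : ι (T j) = (q - q ^ (20 * j)) * q ^ (200 - 20 * j) *
      (∏ i ∈ range j, (q - q ^ (10 * i))) ^ 20 * ι (C' j) ^ 20 * q ^ (100 * j) := by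
    simp only [T, map_mul, map_sub, map_pow, map_prod, ι_X]
  rw [hT, ← hP, ← hqi]
  have e2 : q ^ (j * (11 - 1) ^ 2) = q ^ (100 * j) := by congr 1; norm_num; ring
  rw [e2]
  norm_num
  field_simp

theorem iota_phi : algebraMap ℚ[X] K (cyclotomic 11 ℚ) = ι (∑ i ∈ range 11, X ^ i) := by
  have : Fact (Nat.Prime 11) := ⟨by norm_num⟩
  rw [cyclotomic_prime]
  simp [ι]

theorem const_eq : (((1 / 6 : ℚ) * (((11 : ℕ) : ℚ) - 1) * (((11 : ℕ) : ℚ) - 3) *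
    (2 * ((11 : ℕ) : ℚ) - 3) * (((11 : ℕ) : ℚ) - 2) ^ 2 : ℚ)) = 20520 := by
  norm_num

theorem iota_C (n : ℤ) : ι (C n) = ((n : ℚ) : K) := by
  have e : (C n : ℤ[X]) = ((n : ℤ) : ℤ[X]) := rfl
  rw [e, map_intCast]
  norm_cast

theorem iota_Y (ee : ℕ) :
    q ^ ee * (1 - q) * (ι (B 10)) ^ 20 * R 11 =
    ι (Y0 ee) := by
  rw [R, iota_phi, const_eq, Y0, map_mul, map_mul, map_mul, map_mul, map_mul, map_pow, map_pow,
    map_pow, map_pow, map_sub, map_one, ι_X, iota_C]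
  push_cast
  generalize ι (B 10) = b
  generalize ι (∑ i ∈ range 11, X ^ i) = c
  ring

theorem hS1 (ee : ℕ) (he : ee = 201) :
    q ^ ee * (1 - q) * (ι (B 10)) ^ 20 * S 11 = ∑ j ∈ range 11, ι (T j) := by
  unfold S
  rw [Finset.mul_sum]
  apply Finset.sum_congr rfl
  intro j hj
  exact term_eq ee he j (Finset.mem_range.1 hj)

theorem hS2 : ι T0 = ∑ j ∈ range 11, ι (T j) := by
  unfold T0
  exact map_sum ι T (range 11)

theorem hS3 (ee : ℕ) : ι (N0 ee) = ι T0 - ι (Y0 ee) := by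
  unfold N0
  exact map_sub ι T0 (Y0 ee)

theorem hS4 (a s r t y n : K) (h1 : a * s = t) (h2 : a * r = y) (h3 : n = t - y) :
    a * (s - r) = n := by
  rw [mul_sub, h1, h2, h3]

theorem hS (ee : ℕ) (he : ee = 201) :
    q ^ ee * (1 - q) * (ι (B 10)) ^ 20 * (S 11 - R 11) = ι (N0 ee) :=
  hS4 _ _ _ _ _ _ ((hS1 ee he).trans hS2.symm) (iota_Y ee) (hS3 ee)

theorem key (ee : ℕ) (he : ee = 201) (U V : ℚ[X]) (hV0 : V ≠ 0)
    (h : S 11 - R 11 = algebraMap ℚ[X] K ((cyclotomic 11 ℚ) ^ 5 * U) / algebraMap ℚ[X] K V) :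
    ∃ W : ℚ[X], (N0 ee).map (Int.castRingHom ℚ) * V = (cyclotomic 11 ℚ) ^ 5 * W := by
  have hV : algebraMap ℚ[X] K V ≠ 0 := by
    rwa [Ne, map_eq_zero_iff _ (RatFunc.algebraMap_injective ℚ)]
  refine ⟨(X ^ ee * (1 - X) * ((B 10).map (Int.castRingHom ℚ)) ^ 20) * U, ?_⟩
  apply RatFunc.algebraMap_injective ℚ
  have e1 : algebraMap ℚ[X] K ((N0 ee).map (Int.castRingHom ℚ)) = ι (N0 ee) := rfl
  have e2 : algebraMap ℚ[X] K ((B 10).map (Int.castRingHom ℚ)) = ι (B 10) := rfl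
  rw [map_mul, e1, ← hS ee he, h, map_mul, map_mul, map_mul, map_mul, map_mul, map_pow, map_pow, map_pow,
    map_sub, map_one, e2, RatFunc.algebraMap_X]
  rw [show (RatFunc.X : K) = q from rfl]
  field_simp

theorem fail : ¬ Cong ((cyclotomic 11 ℚ) ^ 5) (S 11) (R 11) := by
  rintro ⟨U, V, hco, hV0, h⟩
  obtain ⟨ee, he⟩ : ∃ ee : ℕ, ee = 201 := ⟨_, rfl⟩
  obtain ⟨W, hW⟩ := key ee he U V hV0 h
  have h1 : (cyclotomic 11 ℚ) ^ 5 ∣ (N0 ee).map (Int.castRingHom ℚ) := by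
    have : (cyclotomic 11 ℚ) ^ 5 ∣ (N0 ee).map (Int.castRingHom ℚ) * V := ⟨W, hW⟩
    exact hco.symm.dvd_of_dvd_mul_right this
  have h2 : (cyclotomic 11 ℤ) ^ 5 ∣ N0 ee := by
    have hm : ((cyclotomic 11 ℤ) ^ 5).Monic := (cyclotomic.monic 11 ℤ).pow 5
    rw [← map_dvd_map (Int.castRingHom ℚ) Int.cast_injective hm]
    rwa [Polynomial.map_pow, map_cyclotomic]
  obtain ⟨Z, hZ⟩ := h2
  have h3 := congrArg (Polynomial.eval 2) hZ
  rw [eval_N0, eval_mul, eval_pow] at h3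
  have hc : (cyclotomic 11 ℤ).eval 2 = 2047 := by
    have : Fact (Nat.Prime 11) := ⟨by norm_num⟩
    rw [cyclotomic_prime]
    simp only [eval_finsetSum, eval_pow, eval_X]
    decide
  rw [hc, he] at h3
  exact nv_not_dvd ⟨_, h3⟩

/-- **The conjectured congruence fails.** For the prime `p = 11` the difference of the two sides is
not divisible by `Φ_11(q)^5`; hence the congruence does not hold for every prime `p > 3`. -/
theorem result :
    ¬ (∀ p : ℕ, p.Prime → 3 < p → Cong ((cyclotomic p ℚ) ^ 5) (S p) (R p)) ∧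
      ¬ Cong ((cyclotomic 11 ℚ) ^ 5) (S 11) (R 11) :=
  ⟨fun h => fail (h 11 (by norm_num) (by norm_num)), fail⟩

end Pool.Agent.Results.MP_328b17_nt.FailsAtEleven
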